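import Pool.Agent.R645.BL.Main

set_option autoImplicit false

namespace Pool.Agent.Results.MP_184855_gt.CompactLOTS

/-- There is a compact linearly ordered space without the Blumberg property: some real-valued
function on it is not continuous on any dense set. -/
theorem result : ∃ (X : Type) (_ : LinearOrder X) (_ : TopologicalSpace X),
    OrderTopology X ∧ CompactSpace X ∧
      ∃ f : X → ℝ, ∀ D : Set X, Dense D → ¬ ContinuousOn f D :=
  Pool.Agent.R645.BL.final

end Pool.Agent.Results.MP_184855_gt.CompactLOTS
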